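import Pool.Agent.R401.Sup3

/-!
# Frobenius elements outside a set of density zero
-/

set_option autoImplicit false
set_option maxHeartbeats 400000

namespace Pool.Agent.U849.PG

open NumberField Filter Topology IsDedekindDomain Pool.Agent.W401.Cheb Pool.Agent.R401.Eng
open Pool.Agent.R401.Sup2

variable {K : Type} [Field K] [NumberField K]

/-- every open normal subgroup contains Frobenius elements at places outside a set of density
zero -/
theorem exists_frob (U : Subgroup (GK K)) [hU : U.Normal] (hUo : IsOpen (U : Set (GK K)))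
    (S : HeightOneSpectrum (𝓞 K) → Prop) (hS : Tendsto (dens S) atTop (𝓝 0)) :
    ∃ v, ¬ S v ∧ ∃ γ : GK K, IsFrob v γ ∧ γ ∈ U := by
  classical
  have hC1 : ∀ σ ∈ (U : Set (GK K)), ∀ τ : GK K, τ * σ * τ⁻¹ ∈ (U : Set (GK K)) :=
    fun σ hσ τ => hU.conj_mem σ hσ τ
  have hC2 : ∀ σ ∈ (U : Set (GK K)), ∀ u ∈ U, σ * u ∈ (U : Set (GK K)) :=
    fun σ hσ u hu => U.mul_mem hσ hu
  have hcheb := Pool.Agent.Y142.chebK K U hUo (U : Set (GK K)) hC1 hC2
  have hfin : Finite (GK K ⧸ U) := Subgroup.quotient_finite_of_isOpen _ hUo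
  have hpos : (0 : ℝ) < (((QuotientGroup.mk : GK K → GK K ⧸ U) '' (U : Set (GK K))).ncard : ℝ) /
      (Nat.card (GK K ⧸ U) : ℝ) := by
    apply div_pos
    · have h1 : ((QuotientGroup.mk : GK K → GK K ⧸ U) '' (U : Set (GK K))).Nonempty :=
        ⟨_, 1, U.one_mem, rfl⟩
      exact_mod_cast (Set.ncard_pos (Set.toFinite _)).2 h1
    · exact_mod_cast Nat.card_pos
  by_contra hcon
  push Not at hcon
  have h0 : Tendsto (dens fun v : HeightOneSpectrum (𝓞 K) => ∃ σ ∈ (U : Set (GK K)), IsFrob v σ)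
      atTop (𝓝 0) := by
    refine squeeze_zero (fun N => ?_) (fun N => ?_) hS
    · unfold dens
      positivity
    · refine dens_le ?_ N
      rintro v ⟨σ, hσ, hv⟩
      by_contra hvS
      exact hcon v hvS σ hv hσ
  exact absurd (tendsto_nhds_unique hcheb h0) hpos.ne'

/-- unions -/
theorem dens_or {P Q : HeightOneSpectrum (𝓞 K) → Prop} (hP : Tendsto (dens P) atTop (𝓝 0))
    (hQ : Tendsto (dens Q) atTop (𝓝 0)) : Tendsto (dens fun v => P v ∨ Q v) atTop (𝓝 0) := by
  have h1 := hP.add hQ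
  rw [add_zero] at h1
  refine squeeze_zero (fun N => ?_) (fun N => card_or P Q N) h1
  unfold dens
  positivity

end Pool.Agent.U849.PG
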