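import Pool.Agent.U849.PG.Sqrt
import Pool.Agent.U849.PG.Frob

/-!
# Linear algebra, and algebraic numbers
-/

set_option autoImplicit false
set_option maxHeartbeats 400000

namespace Pool.Agent.U849.PG

open NumberField Filter Topology IsDedekindDomain Pool.Agent.W401.Cheb Pool.Agent.R401.Eng
open Polynomial Matrix

section weil

/-- a root of a natural number is integral and pure -/
theorem weil {L : Type} [Field L] [CharZero L] {z : L} {k a : ℕ} (hk : 0 < k)
    (hz : z ^ k = (a : L)) : IsIntegral ℤ z ∧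
      ∀ x : ℂ, aeval x (minpoly ℚ z) = 0 → ‖x‖ ^ k = a := by
  constructor
  · refine IsIntegral.of_pow hk ?_
    rw [hz]
    exact isIntegral_algebraMap (R := ℤ) (x := (a : ℤ)) |> fun h => by simpa using h
  · intro x hx
    have h1 : aeval z ((X : ℚ[X]) ^ k - C (a : ℚ)) = 0 := by
      rw [map_sub, map_pow, aeval_X, aeval_C, map_natCast, hz, sub_self]
    obtain ⟨r, hr⟩ := minpoly.dvd ℚ z h1
    have h2 : aeval x ((X : ℚ[X]) ^ k - C (a : ℚ)) = 0 := by
      rw [hr, map_mul, hx, zero_mul]
    rw [map_sub, map_pow, aeval_X, aeval_C, map_natCast, sub_eq_zero] at h2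
    rw [← norm_pow, h2]
    simp

end weil

section conj

/-- a polynomial with coefficients in `E` which vanishes at a square root vanishes at its negative -/
theorem eval_neg {E L : Type} [Field E] [Field L] (τ : E →+* L) (P : E[X]) {a : E} {z : L}
    (hz : z ^ 2 = τ a) (ha : ¬ ∃ x : E, x ^ 2 = a) (h : (P.map τ).eval z = 0) :
    (P.map τ).eval (-z) = 0 := by
  have hmon : (X ^ 2 - C a : E[X]).Monic := monic_X_pow_sub_C a two_ne_zero
  have hdiv := modByMonic_add_div P (X ^ 2 - C a)
  set R := P %ₘ (X ^ 2 - C a) with hR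
  set D := P /ₘ (X ^ 2 - C a) with hD
  have hdeg : R.natDegree ≤ 1 := by
    have h1 : R.degree < (X ^ 2 - C a : E[X]).degree := degree_modByMonic_lt P hmon
    rw [degree_X_pow_sub_C two_pos] at h1
    have h2 : R.degree < ((2 : ℕ) : WithBot ℕ) := h1
    rw [degree_lt_iff_coeff_zero] at h2
    rw [natDegree_le_iff_coeff_eq_zero]
    intro N hN
    exact h2 N hN
  obtain ⟨r₁, r₀, hr⟩ := exists_eq_X_add_C_of_natDegree_le_one hdeg
  have key : ∀ y : L, y ^ 2 = τ a → (P.map τ).eval y = τ r₁ * y + τ r₀ := by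
    intro y hy
    rw [← hdiv, Polynomial.map_add, Polynomial.map_mul, eval_add, eval_mul, hr]
    simp only [Polynomial.map_sub, Polynomial.map_pow, map_X, map_C, eval_sub, eval_pow, eval_X,
      eval_C, hy, sub_self, zero_mul, add_zero, Polynomial.map_add, Polynomial.map_mul, eval_add,
      eval_mul]
  have h1 := key z hz
  rw [h] at h1
  have hr₁ : r₁ = 0 := by
    by_contra hne
    apply ha
    refine ⟨-(r₀ / r₁), τ.injective ?_⟩
    have hne' : τ r₁ ≠ 0 := (map_ne_zero τ).2 hne
    have h2 : z = -(τ r₀ / τ r₁) := by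
      field_simp
      linear_combination -h1
    rw [map_pow, map_neg, map_div₀, ← h2, hz]
  rw [hr₁, map_zero, zero_mul, zero_add] at h1
  rw [key (-z) (by rw [neg_sq, hz]), hr₁, map_zero, zero_mul, zero_add, ← h1]

end conj

section lin

variable {L : Type} [Field L] {n d : ℕ}

/-- roots of the characteristic polynomial -/
theorem root_pow {A : Matrix (Fin n) (Fin n) L} {z a : L} {k : ℕ} (hz : A.charpoly.IsRoot z)
    (hA : A ^ k = a • (1 : Matrix (Fin n) (Fin n) L)) : z ^ k = a := by
  have h1 : (Matrix.scalar (Fin n) z - A).det = 0 := by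
    rw [← Matrix.eval_charpoly]
    exact hz
  obtain ⟨v, hv0, hv⟩ := Matrix.exists_mulVec_eq_zero_iff.2 h1
  have hMv : A.mulVec v = z • v := by
    rw [Matrix.sub_mulVec, sub_eq_zero] at hv
    rw [← hv]
    ext i
    simp [Matrix.scalar_apply, Matrix.mulVec_diagonal]
  have hpow : ∀ k : ℕ, (A ^ k).mulVec v = z ^ k • v := by
    intro k
    induction k with
    | zero => rw [pow_zero, Matrix.one_mulVec, pow_zero, one_smul]
    | succ k ih =>
      rw [pow_succ, ← Matrix.mulVec_mulVec, hMv, Matrix.mulVec_smul, ih, smul_smul, pow_succ,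
        mul_comm]
  have h2 := hpow k
  rw [hA, Matrix.smul_mulVec, Matrix.one_mulVec, ← sub_eq_zero, ← sub_smul] at h2
  rcases smul_eq_zero.1 h2 with h3 | h3
  · exact (sub_eq_zero.1 h3).symm
  · exact absurd h3 hv0

/-- eigenvalues of subquotients -/
theorem eval_eq_zero {A : Matrix (Fin d) (Fin d) L} {M : Matrix (Fin n) (Fin n) L} {z : L}
    (hn : 0 < n) (hM : M = z • (1 : Matrix (Fin n) (Fin n) L)) (B : Submodule L (Fin d → L))
    (f : B →ₗ[L] (Fin n → L)) (hf : Function.Surjective f)
    (heq : ∀ x : B, ∃ h : A *ᵥ (x : Fin d → L) ∈ B, f ⟨_, h⟩ = M *ᵥ f x) :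
    A.charpoly.eval z = 0 := by
  by_contra hne
  rw [Matrix.eval_charpoly] at hne
  let T : B →ₗ[L] B :=
    { toFun := fun x => ⟨z • (x : Fin d → L) - A *ᵥ (x : Fin d → L),
        B.sub_mem (B.smul_mem z x.2) (heq x).1⟩
      map_add' := fun x y => Subtype.ext (by
        simp only [Submodule.coe_add, smul_add, Matrix.mulVec_add]
        abel)
      map_smul' := fun c x => Subtype.ext (by
        simp only [Submodule.coe_smul, Matrix.mulVec_smul, RingHom.id_apply, smul_sub]
        rw [smul_comm]) }
  have hT : ∀ x : B, (T x : Fin d → L) = (Matrix.scalar (Fin d) z - A) *ᵥ (x : Fin d → L) := by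
    intro x
    change z • (x : Fin d → L) - A *ᵥ (x : Fin d → L) = _
    rw [Matrix.sub_mulVec]
    congr 1
    ext i
    simp [Matrix.scalar_apply, Matrix.mulVec_diagonal]
  have hinj : Function.Injective T := by
    rw [← LinearMap.ker_eq_bot, LinearMap.ker_eq_bot']
    intro x hx
    by_contra hx0
    apply hne
    apply Matrix.exists_mulVec_eq_zero_iff.1
    refine ⟨x, fun h => hx0 (Subtype.ext h), ?_⟩
    rw [← hT, hx]
    rfl
  have hsurj := (LinearMap.injective_iff_surjective (f := T)).1 hinj
  have h0 : ∀ x : B, f x = 0 := by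
    intro x
    obtain ⟨y, rfl⟩ := hsurj x
    obtain ⟨h, hy⟩ := heq y
    have h1 : T y = z • y - ⟨_, h⟩ := Subtype.ext rfl
    rw [h1, map_sub, map_smul, hy, hM, Matrix.smul_mulVec, Matrix.one_mulVec, sub_self]
  obtain ⟨x, hx⟩ := hf (fun _ => 1)
  have h2 := congrFun ((h0 x).symm.trans hx) ⟨0, hn⟩
  simp at h2

end lin

section twist

variable {G : Type} [Group G] {L : Type} [Field L] {n : ℕ}

/-- the twist of a representation by a character -/
def twist (c : G →* Lˣ) (α : G →* GL (Fin n) L) : G →* GL (Fin n) L where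
  toFun g := Units.map (Matrix.scalar (Fin n)).toMonoidHom (c g) * α g
  map_one' := by rw [map_one, map_one, map_one, mul_one]
  map_mul' g h := by
    have hc : ∀ (x : Lˣ) (A : GL (Fin n) L), A * Units.map (Matrix.scalar (Fin n)).toMonoidHom x =
        Units.map (Matrix.scalar (Fin n)).toMonoidHom x * A := by
      intro x A
      apply Units.ext
      change (A : Matrix (Fin n) (Fin n) L) * Matrix.scalar (Fin n) (x : L) =
        Matrix.scalar (Fin n) (x : L) * A
      exact ((Matrix.scalar_commute (x : L) (fun r => Commute.all _ r) _).eq).symm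
    rw [map_mul, map_mul, map_mul, mul_assoc, ← mul_assoc (Units.map _ (c h)), ← hc (c h) (α g),
      mul_assoc, mul_assoc]

theorem twist_apply (c : G →* Lˣ) (α : G →* GL (Fin n) L) (g : G) :
    (twist c α g : Matrix (Fin n) (Fin n) L) = (c g : L) • (α g : Matrix (Fin n) (Fin n) L) := by
  change Matrix.scalar (Fin n) (c g : L) * (α g : Matrix (Fin n) (Fin n) L) = _
  rw [Matrix.smul_eq_diagonal_mul]
  rfl

theorem continuous_twist [TopologicalSpace L] [IsTopologicalRing L] [TopologicalSpace G]
    {c : G →* Lˣ} (hc : Continuous c) {α : G →* GL (Fin n) L} (hα : Continuous α) :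
    Continuous (twist c α) := by
  have h1 : Continuous (Units.map (Matrix.scalar (Fin n) : L →+* _).toMonoidHom) := by
    apply Continuous.units_map
    change Continuous fun x : L => Matrix.scalar (Fin n) x
    simp only [Matrix.scalar_apply]
    fun_prop
  exact (h1.comp hc).mul hα

end twist

end Pool.Agent.U849.PG
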