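import Mathlib

/-!
# The square root of the one-unit part of an `ℓ`-adic unit
-/

set_option autoImplicit false

namespace Pool.Agent.U849.PG

open Polynomial

variable {ℓ : ℕ} [hℓ : Fact ℓ.Prime]

variable (ℓ) in
/-- the units which are congruent to `1` modulo `ℓ` -/
noncomputable def U1 : Subgroup ℤ_[ℓ]ˣ := (Units.map (PadicInt.toZMod (p := ℓ)).toMonoidHom).ker

theorem mem_U1 {u : ℤ_[ℓ]ˣ} : u ∈ U1 ℓ ↔ PadicInt.toZMod (u : ℤ_[ℓ]) = 1 := by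
  unfold U1
  rw [MonoidHom.mem_ker, Units.ext_iff]
  rfl

theorem isClosed_U1 : IsClosed (U1 ℓ : Set ℤ_[ℓ]ˣ) := by
  have h1 : (U1 ℓ : Set ℤ_[ℓ]ˣ) = (fun u : ℤ_[ℓ]ˣ => ((u : ℤ_[ℓ]) - 1)) ⁻¹' {x | ‖x‖ < 1} := by
    ext u
    rw [SetLike.mem_coe, mem_U1, Set.mem_preimage, Set.mem_ofPred_eq, ← PadicInt.mem_nonunits,
      ← IsLocalRing.mem_maximalIdeal, ← PadicInt.ker_toZMod, RingHom.mem_ker, map_sub, map_one,
      sub_eq_zero]
  rw [h1]
  have h2 : {x : ℤ_[ℓ] | ‖x‖ < 1} = Metric.ball 0 1 := by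
    ext x
    simp
  rw [h2]
  exact (IsUltrametricDist.isClosed_ball 0 1).preimage (Units.continuous_val.sub continuous_const)

theorem natCast_ne {m : ℕ} (hm : m.Coprime ℓ) : ((m : ℕ) : ZMod ℓ) ≠ 0 := by
  intro h
  rw [ZMod.natCast_eq_zero_iff] at h
  have h1 := Nat.Coprime.eq_one_of_dvd hm.symm h
  exact hℓ.out.one_lt.ne' h1

/-- roots of one-units are unique -/
theorem eq_one_of_pow {m : ℕ} (hm : m.Coprime ℓ) {u : ℤ_[ℓ]ˣ} (hu : u ∈ U1 ℓ) (h : u ^ m = 1) :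
    u = 1 := by
  have h1 : ((u : ℤ_[ℓ]) - 1) * ∑ i ∈ Finset.range m, (u : ℤ_[ℓ]) ^ i = 0 := by
    rw [mul_geom_sum, ← Units.val_pow_eq_pow_val, h, Units.val_one, sub_self]
  rcases mul_eq_zero.1 h1 with h2 | h2
  · exact Units.ext (sub_eq_zero.1 h2)
  · exfalso
    have h3 := congrArg PadicInt.toZMod h2
    rw [map_sum, map_zero] at h3
    simp only [map_pow, mem_U1.1 hu, one_pow, Finset.sum_const, Finset.card_range, nsmul_eq_mul,
      mul_one] at h3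
    exact natCast_ne hm h3

/-- roots of one-units exist -/
theorem exists_pow_eq {m : ℕ} (hm : m.Coprime ℓ) {u : ℤ_[ℓ]ˣ} (hu : u ∈ U1 ℓ) :
    ∃ y ∈ U1 ℓ, y ^ m = u := by
  have hm1 : ‖(m : ℤ_[ℓ])‖ = 1 := by
    rw [PadicInt.norm_natCast_eq_one_iff]
    exact hm.symm
  have hu1 : ‖1 - (u : ℤ_[ℓ])‖ < 1 := by
    rw [← PadicInt.mem_nonunits, ← IsLocalRing.mem_maximalIdeal, ← PadicInt.ker_toZMod,
      RingHom.mem_ker, map_sub, map_one, mem_U1.1 hu, sub_self]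
  obtain ⟨z, hz, hz1, -⟩ := hensels_lemma (p := ℓ) (R := ℤ_[ℓ]) (F := X ^ m - C (u : ℤ_[ℓ]))
    (a := 1) (by
      rw [derivative_sub, derivative_C, sub_zero, derivative_X_pow]
      simp only [map_sub, map_mul, map_pow, aeval_X, aeval_C, one_pow, mul_one, map_natCast,
        Algebra.algebraMap_self, RingHom.id_apply]
      rw [hm1]
      simpa using hu1)
  rw [derivative_sub, derivative_C, sub_zero, derivative_X_pow] at hz1
  simp only [map_sub, map_mul, map_pow, aeval_X, aeval_C, one_pow, mul_one, map_natCast,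
    Algebra.algebraMap_self, RingHom.id_apply] at hz hz1
  rw [hm1] at hz1
  have hzm : z ^ m = u := sub_eq_zero.1 hz
  have hz2 : PadicInt.toZMod z = 1 := by
    rw [← PadicInt.mem_nonunits, ← IsLocalRing.mem_maximalIdeal, ← PadicInt.ker_toZMod,
      RingHom.mem_ker, map_sub, map_one, sub_eq_zero] at hz1
    exact hz1
  have hzu : IsUnit z := by
    rw [PadicInt.isUnit_iff]
    have h1 : ¬ ‖z‖ < 1 := by
      rw [← PadicInt.mem_nonunits, ← IsLocalRing.mem_maximalIdeal, ← PadicInt.ker_toZMod,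
        RingHom.mem_ker, hz2]
      exact one_ne_zero
    exact le_antisymm (PadicInt.norm_le_one z) (not_lt.1 h1)
  obtain ⟨y, rfl⟩ := hzu
  refine ⟨y, mem_U1.2 hz2, Units.ext ?_⟩
  rw [Units.val_pow_eq_pow_val]
  exact hzm

theorem compactSpace_U1 : CompactSpace (U1 ℓ) := isCompact_iff_compactSpace.1 isClosed_U1.isCompact

/-- the power map -/
noncomputable def pw {m : ℕ} (hm : m.Coprime ℓ) : U1 ℓ ≃* U1 ℓ :=
  MulEquiv.ofBijective (powMonoidHom m : U1 ℓ →* U1 ℓ) (by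
    constructor
    · rw [injective_iff_map_eq_one]
      rintro ⟨u, hu⟩ h
      exact Subtype.ext (eq_one_of_pow hm hu (congrArg Subtype.val h))
    · rintro ⟨u, hu⟩
      obtain ⟨y, hy, hyu⟩ := exists_pow_eq hm hu
      exact ⟨⟨y, hy⟩, Subtype.ext hyu⟩)

theorem pw_apply {m : ℕ} (hm : m.Coprime ℓ) (u : U1 ℓ) : pw hm u = u ^ m := rfl

theorem continuous_pw_symm {m : ℕ} (hm : m.Coprime ℓ) : Continuous (pw (ℓ := ℓ) hm).symm := by
  have := compactSpace_U1 (ℓ := ℓ)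
  have h1 : Continuous (pw (ℓ := ℓ) hm).toEquiv := by
    change Continuous fun u : U1 ℓ => u ^ m
    exact continuous_id.pow m
  exact (Continuous.homeoOfEquivCompactToT2 h1).symm.continuous

theorem coprime_one : (ℓ - 1).Coprime ℓ := by
  have h1 : ℓ = (ℓ - 1) + 1 := (Nat.sub_add_cancel hℓ.out.one_lt.le).symm
  conv_rhs => rw [h1]
  simp

theorem coprime_two (h2 : ℓ ≠ 2) : (2 * (ℓ - 1)).Coprime ℓ := by
  refine Nat.Coprime.mul_left ?_ coprime_one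
  exact (Nat.coprime_primes Nat.prime_two hℓ.out).2 (Ne.symm h2)

theorem pow_mem_U1 (x : ℤ_[ℓ]ˣ) : x ^ (ℓ - 1) ∈ U1 ℓ := by
  rw [mem_U1, Units.val_pow_eq_pow_val, map_pow]
  apply ZMod.pow_card_sub_one_eq_one
  exact (x.isUnit.map PadicInt.toZMod).ne_zero

/-- the square root of the one-unit part -/
noncomputable def sq (h2 : ℓ ≠ 2) : ℤ_[ℓ]ˣ →* ℤ_[ℓ]ˣ :=
  (U1 ℓ).subtype.comp ((pw (coprime_two h2)).symm.toMonoidHom.comp
    ((powMonoidHom (ℓ - 1) : ℤ_[ℓ]ˣ →* ℤ_[ℓ]ˣ).codRestrict (U1 ℓ) pow_mem_U1))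

theorem continuous_sq (h2 : ℓ ≠ 2) : Continuous (sq (ℓ := ℓ) h2) := by
  refine continuous_subtype_val.comp ((continuous_pw_symm (coprime_two h2)).comp ?_)
  exact Continuous.subtype_mk (continuous_id.pow (ℓ - 1)) _

theorem sq_mem (h2 : ℓ ≠ 2) (x : ℤ_[ℓ]ˣ) : sq h2 x ∈ U1 ℓ := Subtype.prop _

theorem sq_pow (h2 : ℓ ≠ 2) (x : ℤ_[ℓ]ˣ) : sq h2 x ^ (2 * (ℓ - 1)) = x ^ (ℓ - 1) := by
  have h1 := (pw (ℓ := ℓ) (coprime_two h2)).apply_symm_apply ⟨x ^ (ℓ - 1), pow_mem_U1 x⟩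
  rw [pw_apply] at h1
  exact congrArg Subtype.val h1

theorem sq_sq (h2 : ℓ ≠ 2) {x : ℤ_[ℓ]ˣ} (hx : x ∈ U1 ℓ) : sq h2 x ^ 2 = x := by
  have h1 : sq h2 x ^ 2 * x⁻¹ ∈ U1 ℓ := (U1 ℓ).mul_mem ((U1 ℓ).pow_mem (sq_mem h2 x) 2)
    ((U1 ℓ).inv_mem hx)
  have h3 := eq_one_of_pow (coprime_one (ℓ := ℓ)) h1 (by
    rw [mul_pow, ← pow_mul, sq_pow, inv_pow, mul_inv_cancel])
  exact mul_inv_eq_one.1 h3

end Pool.Agent.U849.PG
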